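import Pool.Agent.Helper17.RZ.St3

/-!
# Project RZ, module C9: generation (assembly)
-/

set_option autoImplicit false

namespace Pool.Agent.Helper18.RZ

open Pool.Agent.Helper17.RZ

universe u

noncomputable section

variable {k : Type u} [Field k] {K : Type u} [Field K] [Algebra k K]

theorem unshift (hI : IsoRetr.{u}) (Z : ProjVar k K) (X : Cplx Z) (i : ℤ) :
    Z.perf.Retract X ((X.shift i).shift (-i)) := by
  have hd : (((-i).negOnePow : ℤˣ) : ℤ) • (((i.negOnePow : ℤˣ) : ℤ) • X.d) = X.d := by
    rw [smul_smul, ← Units.val_mul, Int.negOnePow_neg, Int.units_mul_self, Units.val_one, one_smul]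
  have hp : ∀ j : ℤ, ((X.shift i).shift (-i)).pr j = X.pr j := by
    intro j
    change X.pr (j + -i + i) = X.pr j
    rw [show j + -i + i = j by ring]
  have hd' : ((X.shift i).shift (-i)).d = X.d := hd
  refine hI k K Z ((X.shift i).shift (-i)) X LinearMap.id LinearMap.id ?_ ?_ ?_ ?_ ?_ ?_ ?_
  · intro j
    change LinearMap.id ∘ₗ X.pr j = ((X.shift i).shift (-i)).pr (j + 0) ∘ₗ LinearMap.id
    rw [hp, add_zero]
    rfl
  · intro j
    change LinearMap.id ∘ₗ ((X.shift i).shift (-i)).pr j = X.pr (j + 0) ∘ₗ LinearMap.id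
    rw [hp, add_zero]
    rfl
  · change LinearMap.id ∘ₗ X.d = ((X.shift i).shift (-i)).d ∘ₗ LinearMap.id
    rw [hd']
    rfl
  · change LinearMap.id ∘ₗ ((X.shift i).shift (-i)).d = X.d ∘ₗ LinearMap.id
    rw [hd']
    rfl
  · intro σ _ y hy
    exact hy
  · intro σ _ y hy
    exact hy
  · rfl

/-- C9 -/
theorem genAll (hR : ResEx.{u}) (hT : RetrEx.{u}) (hTr : TrunEx.{u}) (hI : IsoRetr.{u}) :
    GenAll.{u} := by
  intro k _ K _ _ Z E hE
  have h0 : ∀ V : Cplx Z, V.Conc0 → Thick E V := by
    intro V hV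
    obtain ⟨X, π, hX, hres⟩ := hR k K Z E hE (Fintype.card Z.I) V hV
    exact Thick.retract X V hX (hT k K Z X V π _ hV hres le_rfl)
  have h1 : ∀ (X : Cplx Z) (i : ℤ), (X.shift i).Conc0 → Thick E X := by
    intro X i hX
    exact Thick.retract _ X (Thick.shift _ (-i) (h0 _ hX)) (unshift hI Z X i)
  have h2 : ∀ (n : ℕ) (X : Cplx Z) (i b : ℤ), (b + 1 - i).toNat = n → (∀ j, j < i → X.pr j = 0) →
      (∀ j, b < j → X.pr j = 0) → Thick E X := by
    intro n
    induction n with
    | zero =>
      intro X i b hn hlow hhigh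
      have hib : b < i := by
        have := Int.toNat_eq_zero.mp hn
        omega
      have hall : ∀ j, X.pr j = 0 := by
        intro j
        rcases lt_or_ge j i with h | h
        · exact hlow j h
        · exact hhigh j (by omega)
      have hid : (LinearMap.id : X.V →ₗ[K] X.V) = 0 := by
        rw [← X.pr_sum]
        exact Finset.sum_eq_zero fun j _ => hall j
      refine Thick.retract E X Thick.base ?_
      refine hI k K Z E X 0 0 ?_ ?_ ?_ ?_ ?_ ?_ ?_
      · intro j; simp
      · intro j; simp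
      · simp
      · simp
      · intro σ _ y _
        exact (E.lat σ).zero_mem
      · intro σ _ y _
        exact (X.lat σ).zero_mem
      · rw [hid]; simp
    | succ n ih =>
      intro X i b hn hlow hhigh
      obtain ⟨X', X'', hses, hX'1, hX'2, hX''⟩ := hTr k K Z X i hlow
      refine Thick.ses₂ X' X X'' hses ?_ (h1 X'' i hX'')
      refine ih X' (i + 1) b (by omega) (fun j hj => hX'1 j (by omega)) (fun j hj => ?_)
      exact hX'2 j (hhigh j hj)
  intro X
  refine h2 _ X (-(X.bd : ℤ)) X.bd rfl ?_ ?_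
  · intro j hj
    apply X.pr_bd
    rw [lt_abs]
    right; omega
  · intro j hj
    apply X.pr_bd
    rw [lt_abs]
    left; exact hj

end

end Pool.Agent.Helper18.RZ
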