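import Pool.Agent.Helper17.RZ.St5
import Pool.Agent.Helper28.RZ.GlobQ

/-!
# RZ-E1: strict local homotopy equivalences are homotopy equivalences in the Cech DG category
-/

set_option autoImplicit false
set_option linter.unusedSimpArgs false
set_option linter.unusedSectionVars false

namespace Pool.Agent.Helper18.RZ

open Pool.Agent.Helper17.RZ Pool.Agent.Helper49.RZ Pool.Agent.Helper28.RZ

universe u v

noncomputable section

namespace HSI

variable {k : Type u} [Field k] {L : Type u} [Field L] [Algebra k L] {I : Type} [LinearOrder I]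

theorem cst_left {U V : Type u} [AddCommGroup U] [AddCommGroup V] [Module L U] [Module L V]
    (ε : U →ₗ[L] V) : (cst ε : Finset I → _) = fun σ => ε ∘ₗ cone1 U σ := by
  funext σ; unfold cst cone1; split <;> simp

theorem cst_right {U V : Type u} [AddCommGroup U] [AddCommGroup V] [Module L U] [Module L V]
    (ε : U →ₗ[L] V) : (cst ε : Finset I → _) = fun σ => cone1 V σ ∘ₗ ε := by
  funext σ; unfold cst cone1; split <;> simp

theorem cst_ccup {U V W : Type u} [AddCommGroup U] [AddCommGroup V] [AddCommGroup W] [Module L U]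
    [Module L V] [Module L W] (ε : V →ₗ[L] W) (c : Finset I → (U →ₗ[L] V)) (hc : c ∅ = 0)
    (σ : Finset I) : ccup (cst ε) c σ = ε ∘ₗ c σ := by
  conv_rhs => rw [← cone_ccup c hc σ]
  rw [cst_left]
  unfold ccup
  rw [lcomp_sum]
  exact Finset.sum_congr rfl fun i _ => by rw [LinearMap.comp_assoc]

theorem ccup_cst {U V W : Type u} [AddCommGroup U] [AddCommGroup V] [AddCommGroup W] [Module L U]
    [Module L V] [Module L W] (ε : U →ₗ[L] V) (c : Finset I → (V →ₗ[L] W)) (hc : c ∅ = 0)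
    (σ : Finset I) : ccup c (cst ε) σ = c σ ∘ₗ ε := by
  conv_rhs => rw [← ccup_cone c hc σ]
  rw [cst_right]
  unfold ccup
  rw [lsum_comp]
  exact Finset.sum_congr rfl fun i _ => by rw [LinearMap.comp_assoc]

/-- left composition with a strict closed morphism of degree 0 -/
theorem comp_rawD {W X Y : GrD k L} {π : X.V →ₗ[L] Y.V} (hdeg : IsDeg (X := X) (Y := Y) 0 π)
    (hd : π ∘ₗ X.d = Y.d ∘ₗ π) (n : ℤ) (b : Finset I → (W.V →ₗ[L] X.V)) (σ : Finset I) :
    π ∘ₗ rawD W X n b σ = rawD W Y n (fun τ => π ∘ₗ b τ) σ := by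
  have h1 := GrD.P_comp hdeg
  rw [Int.negOnePow_zero, Units.val_one, one_smul] at h1
  unfold rawD
  rw [cdel_comp_left, LinearMap.comp_sub, LinearMap.comp_add, LinearMap.comp_smul]
  congr 2
  · rw [← LinearMap.comp_assoc, ← h1, LinearMap.comp_assoc]
  · rw [← LinearMap.comp_assoc, hd, LinearMap.comp_assoc]

/-- right composition with a strict closed morphism of degree 0 -/
theorem rawD_comp {W X Y : GrD k L} {ε : X.V →ₗ[L] Y.V}
    (hd : ε ∘ₗ X.d = Y.d ∘ₗ ε) (n : ℤ) (b : Finset I → (Y.V →ₗ[L] W.V)) (σ : Finset I) :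
    rawD Y W n b σ ∘ₗ ε = rawD X W n (fun τ => b τ ∘ₗ ε) σ := by
  unfold rawD
  rw [cdel_comp_right, LinearMap.sub_comp, LinearMap.add_comp, LinearMap.smul_comp]
  congr 2
  rw [LinearMap.comp_assoc, ← hd, LinearMap.comp_assoc]

theorem rawD_zero (X Y : GrD k L) (n : ℤ) (σ : Finset I) :
    rawD X Y n (fun _ => 0) σ = 0 := by simp [rawD, cdel]

theorem rawD_cst {X Y : GrD k L} {π : X.V →ₗ[L] Y.V} (hd : π ∘ₗ X.d = Y.d ∘ₗ π) (σ : Finset I) :
    rawD X Y 0 (cst π) σ = 0 := by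
  unfold rawD
  rw [cdel_cst, LinearMap.comp_zero, zero_add, Int.negOnePow_zero, Units.val_one, one_smul,
    sub_eq_zero]
  unfold cst
  split_ifs
  · exact hd.symm
  · rw [LinearMap.comp_zero, LinearMap.zero_comp]

theorem negOnePow_succ' {l n : ℤ} (h : l + 1 = n) :
    ((n.negOnePow : ℤˣ) : ℤ) = - ((l.negOnePow : ℤˣ) : ℤ) := by
  rw [← h, Int.negOnePow_succ]; simp

variable (S : LocSys.{u, v} k L I)

/-- a cochain concentrated on the sets with `q` elements -/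
theorem conc_mem {X Y : S.Obj} {n : ℤ} {q : ℕ} (hq : 1 ≤ q)
    {f : Finset I → ((S.G X).V →ₗ[L] (S.G Y).V)}
    (h : ∀ σ : Finset I, σ.card = q → f σ ∈ S.H X Y σ ∧
      IsDeg (X := S.G X) (Y := S.G Y) (n - ((q : ℤ) - 1)) (f σ)) :
    (fun σ => if σ.card = q then f σ else 0) ∈ S.Hom X Y n := by
  refine ⟨if_neg (by rw [Finset.card_empty]; omega), fun σ hσ => ?_⟩
  by_cases h1 : σ.card = q
  · simp only [if_pos h1]
    rw [h1]
    exact h σ h1
  · simp only [if_neg h1]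
    exact ⟨Submodule.zero_mem _, IsDeg.zero⟩

theorem cdel_low {M : Type u} [AddCommGroup M] {c : Finset I → M} {q : ℕ}
    (hz : ∀ σ : Finset I, σ.card < q → c σ = 0) {σ : Finset I} (hσ : σ.card < q + 1) :
    cdel c σ = 0 := by
  unfold cdel
  apply Finset.sum_eq_zero
  intro i hi'
  have h2 := Finset.card_erase_add_one hi'
  rw [hz _ (by omega), smul_zero]

theorem claimS [Fintype I] {X Y : S.Obj} {π : (S.G X).V →ₗ[L] (S.G Y).V}
    (hdeg : IsDeg (X := S.G X) (Y := S.G Y) 0 π) (hd : π ∘ₗ (S.G X).d = (S.G Y).d ∘ₗ π)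
    (hloc : ∀ σ : Finset I, σ.Nonempty → ∃ j ∈ S.H Y X σ, ∃ h ∈ S.H X X σ,
      IsDeg (X := S.G Y) (Y := S.G X) 0 j ∧ IsDeg (X := S.G X) (Y := S.G X) (-1) h ∧
      π ∘ₗ j = LinearMap.id ∧ LinearMap.id - j ∘ₗ π = (S.G X).d ∘ₗ h + h ∘ₗ (S.G X).d ∧ π ∘ₗ h = 0)
    (W : S.Obj) {n m : ℤ} (hnm : n + 1 = m) (r : ℕ) : ∀ q : ℕ, 1 ≤ q →
    Fintype.card I + 1 ≤ q + r → ∀ c : Finset I → ((S.G W).V →ₗ[L] (S.G X).V),
      c ∈ S.Hom W X m → (∀ σ, rawD (S.G W) (S.G X) m c σ = 0) → (∀ σ, π ∘ₗ c σ = 0) →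
      (∀ σ : Finset I, σ.card < q → c σ = 0) →
      ∃ b : Finset I → ((S.G W).V →ₗ[L] (S.G X).V), b ∈ S.Hom W X n ∧ (∀ σ, π ∘ₗ b σ = 0) ∧
        ∀ σ, rawD (S.G W) (S.G X) n b σ = c σ := by
  induction r with
  | zero =>
    intro q _ hq c _ _ _ hz
    refine ⟨fun _ => 0, Submodule.zero_mem _, fun σ => LinearMap.comp_zero _, fun σ => ?_⟩
    have := Finset.card_le_univ σ
    rw [hz σ (by omega), rawD_zero]
  | succ r ih =>
    intro q hq1 hq c hc hD hπ hz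
    have hlift : ∀ σ : Finset I, ∃ h : (S.G X).V →ₗ[L] (S.G X).V, σ.card = q →
        h ∈ S.H X X σ ∧ IsDeg (X := S.G X) (Y := S.G X) (-1) h ∧ π ∘ₗ h = 0 ∧
        (S.G X).d ∘ₗ h ∘ₗ c σ + h ∘ₗ (S.G X).d ∘ₗ c σ = c σ := by
      intro σ
      by_cases hσ : σ.card = q
      · have hne : σ.Nonempty := Finset.card_pos.1 (by omega)
        obtain ⟨j, hj, h, hh, hjd, hhd, hπj, hjπ, hπh⟩ := hloc σ hne
        refine ⟨h, fun _ => ⟨hh, hhd, hπh, ?_⟩⟩
        have h1 := congrArg (fun f => f ∘ₗ c σ) hjπ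
        simp only [LinearMap.sub_comp, LinearMap.add_comp, LinearMap.id_comp,
          LinearMap.comp_assoc] at h1
        rw [hπ, LinearMap.comp_zero, sub_zero] at h1
        exact h1.symm
      · exact ⟨0, fun h => absurd h hσ⟩
    choose h hh using hlift
    set b1 : Finset I → ((S.G W).V →ₗ[L] (S.G X).V) :=
      fun σ => if σ.card = q then h σ ∘ₗ c σ else 0 with hb1
    have hb1m : b1 ∈ S.Hom W X n := by
      refine conc_mem S hq1 fun σ h1 => ?_
      have hne : σ.Nonempty := Finset.card_pos.1 (by omega)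
      have hcσ := hc.2 σ hne
      refine ⟨S.comp_mem W X X σ _ _ (hh σ h1).1 hcσ.1, ?_⟩
      have h2 := (hh σ h1).2.1.comp hcσ.2
      rw [h1, show (-1 : ℤ) + (m - ((q : ℤ) - 1)) = n - ((q : ℤ) - 1) by rw [← hnm]; ring] at h2
      exact h2
    have hb1π : ∀ σ, π ∘ₗ b1 σ = 0 := by
      intro σ
      by_cases h1 : σ.card = q
      · simp only [hb1, if_pos h1]
        rw [← LinearMap.comp_assoc, (hh σ h1).2.2.1, LinearMap.zero_comp]
      · simp only [hb1, if_neg h1]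
        rw [LinearMap.comp_zero]
    have hb1z : ∀ σ : Finset I, σ.card < q → b1 σ = 0 := by
      intro σ hσ
      simp only [hb1, if_neg (by omega : ¬ σ.card = q)]
    have hb1D : ∀ σ : Finset I, σ.card < q + 1 → rawD (S.G W) (S.G X) n b1 σ = c σ := by
      intro σ hσ
      by_cases h2 : σ.card = q
      · have h0 : b1 σ = h σ ∘ₗ c σ := by simp only [hb1, if_pos h2]
        have h1 := hD σ
        unfold rawD at h1 ⊢
        rw [cdel_low hz hσ, LinearMap.comp_zero, zero_add, negOnePow_succ' hnm] at h1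
        rw [cdel_low hb1z hσ, LinearMap.comp_zero, zero_add, h0]
        have h3 : (S.G X).d ∘ₗ c σ = -((n.negOnePow : ℤˣ) : ℤ) • (c σ ∘ₗ (S.G W).d) :=
          sub_eq_zero.1 h1
        have h4 := (hh σ h2).2.2.2
        rw [h3] at h4
        rw [sub_eq_add_neg]
        refine Eq.trans ?_ h4
        congr 1
        rw [LinearMap.comp_assoc, neg_smul, LinearMap.comp_neg, LinearMap.comp_smul]
      · have h0 : b1 σ = 0 := by simp only [hb1, if_neg h2]
        unfold rawD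
        rw [cdel_low hb1z hσ, h0, hz σ (by omega)]
        simp
    obtain ⟨b2, hb2m, hb2π, hb2D⟩ := ih (q + 1) (by omega) (by omega)
      (fun σ => c σ - rawD (S.G W) (S.G X) n b1 σ)
      (Submodule.sub_mem _ hc (S.rawD_mem hnm hb1m)) (fun σ => by
        rw [Helper28.RZ.rawD_sub, hD, zero_sub, neg_eq_zero]
        subst hnm
        exact rawD_rawD (S.G W) (S.G X) n b1 σ) (fun σ => by
        rw [LinearMap.comp_sub, hπ, comp_rawD hdeg hd]
        have h1 : (fun τ => π ∘ₗ b1 τ) = fun _ => 0 := funext hb1π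
        rw [h1, rawD_zero, sub_zero]) (fun σ hσ => by
        rw [hb1D σ hσ, sub_self])
    refine ⟨fun σ => b1 σ + b2 σ, Submodule.add_mem _ hb1m hb2m, fun σ => ?_, fun σ => ?_⟩
    · rw [LinearMap.comp_add, hb1π, hb2π, add_zero]
    · rw [Helper28.RZ.rawD_add, hb2D]
      abel

theorem claimI [Fintype I] {X Y : S.Obj} {ε : (S.G X).V →ₗ[L] (S.G Y).V}
    (hd : ε ∘ₗ (S.G X).d = (S.G Y).d ∘ₗ ε)
    (hloc : ∀ σ : Finset I, σ.Nonempty → ∃ r ∈ S.H Y X σ, ∃ h ∈ S.H Y Y σ,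
      IsDeg (X := S.G Y) (Y := S.G X) 0 r ∧ IsDeg (X := S.G Y) (Y := S.G Y) (-1) h ∧
      r ∘ₗ ε = LinearMap.id ∧ LinearMap.id - ε ∘ₗ r = (S.G Y).d ∘ₗ h + h ∘ₗ (S.G Y).d ∧ h ∘ₗ ε = 0)
    (W : S.Obj) {n m : ℤ} (hnm : n + 1 = m) (r : ℕ) : ∀ q : ℕ, 1 ≤ q →
    Fintype.card I + 1 ≤ q + r → ∀ c : Finset I → ((S.G Y).V →ₗ[L] (S.G W).V),
      c ∈ S.Hom Y W m → (∀ σ, rawD (S.G Y) (S.G W) m c σ = 0) → (∀ σ, c σ ∘ₗ ε = 0) →
      (∀ σ : Finset I, σ.card < q → c σ = 0) →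
      ∃ b : Finset I → ((S.G Y).V →ₗ[L] (S.G W).V), b ∈ S.Hom Y W n ∧ (∀ σ, b σ ∘ₗ ε = 0) ∧
        ∀ σ, rawD (S.G Y) (S.G W) n b σ = c σ := by
  induction r with
  | zero =>
    intro q _ hq c _ _ _ hz
    refine ⟨fun _ => 0, Submodule.zero_mem _, fun σ => LinearMap.zero_comp _, fun σ => ?_⟩
    have := Finset.card_le_univ σ
    rw [hz σ (by omega), rawD_zero]
  | succ r ih =>
    intro q hq1 hq c hc hD hπ hz
    have hlift : ∀ σ : Finset I, ∃ h : (S.G Y).V →ₗ[L] (S.G Y).V, σ.card = q →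
        h ∈ S.H Y Y σ ∧ IsDeg (X := S.G Y) (Y := S.G Y) (-1) h ∧ h ∘ₗ ε = 0 ∧
        (c σ ∘ₗ (S.G Y).d) ∘ₗ h + c σ ∘ₗ h ∘ₗ (S.G Y).d = c σ := by
      intro σ
      by_cases hσ : σ.card = q
      · have hne : σ.Nonempty := Finset.card_pos.1 (by omega)
        obtain ⟨j, hj, h, hh, hjd, hhd, hπj, hjπ, hπh⟩ := hloc σ hne
        refine ⟨h, fun _ => ⟨hh, hhd, hπh, ?_⟩⟩
        have h1 := congrArg (fun f => c σ ∘ₗ f) hjπ
        simp only [LinearMap.comp_sub, LinearMap.comp_add, LinearMap.comp_id] at h1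
        rw [← LinearMap.comp_assoc, hπ, LinearMap.zero_comp, sub_zero, ← LinearMap.comp_assoc] at h1
        exact h1.symm
      · exact ⟨0, fun h => absurd h hσ⟩
    choose h hh using hlift
    set b1 : Finset I → ((S.G Y).V →ₗ[L] (S.G W).V) :=
      fun σ => if σ.card = q then -((n.negOnePow : ℤˣ) : ℤ) • (c σ ∘ₗ h σ) else 0 with hb1
    have hb1m : b1 ∈ S.Hom Y W n := by
      refine conc_mem S hq1 fun σ h1 => ?_
      have hne : σ.Nonempty := Finset.card_pos.1 (by omega)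
      have hcσ := hc.2 σ hne
      refine ⟨zsmul_mem (S.comp_mem Y Y W σ _ _ hcσ.1 (hh σ h1).1) _, IsDeg.zsmul _ ?_⟩
      have h2 := hcσ.2.comp (hh σ h1).2.1
      rw [h1, show (m - ((q : ℤ) - 1)) + (-1 : ℤ) = n - ((q : ℤ) - 1) by rw [← hnm]; ring] at h2
      exact h2
    have hb1π : ∀ σ, b1 σ ∘ₗ ε = 0 := by
      intro σ
      by_cases h1 : σ.card = q
      · simp only [hb1, if_pos h1]
        rw [LinearMap.smul_comp, LinearMap.comp_assoc, (hh σ h1).2.2.1, LinearMap.comp_zero,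
          smul_zero]
      · simp only [hb1, if_neg h1]
        rw [LinearMap.zero_comp]
    have hb1z : ∀ σ : Finset I, σ.card < q → b1 σ = 0 := by
      intro σ hσ
      simp only [hb1, if_neg (by omega : ¬ σ.card = q)]
    have hb1D : ∀ σ : Finset I, σ.card < q + 1 → rawD (S.G Y) (S.G W) n b1 σ = c σ := by
      intro σ hσ
      by_cases h2 : σ.card = q
      · have h0 : b1 σ = -((n.negOnePow : ℤˣ) : ℤ) • (c σ ∘ₗ h σ) := by simp only [hb1, if_pos h2]
        have h1 := hD σ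
        unfold rawD at h1 ⊢
        rw [cdel_low hz hσ, LinearMap.comp_zero, zero_add, negOnePow_succ' hnm] at h1
        rw [cdel_low hb1z hσ, LinearMap.comp_zero, zero_add, h0]
        have h3 : (S.G W).d ∘ₗ c σ = -((n.negOnePow : ℤˣ) : ℤ) • (c σ ∘ₗ (S.G Y).d) :=
          sub_eq_zero.1 h1
        have h4 := (hh σ h2).2.2.2
        rw [LinearMap.comp_smul, ← LinearMap.comp_assoc, h3, LinearMap.smul_comp,
          LinearMap.smul_comp, smul_smul, smul_smul, neg_mul_neg, mul_neg, negOnePow_mul_self,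
          neg_smul, one_smul, sub_neg_eq_add, one_smul]
        exact h4
      · have h0 : b1 σ = 0 := by simp only [hb1, if_neg h2]
        unfold rawD
        rw [cdel_low hb1z hσ, h0, hz σ (by omega)]
        simp
    obtain ⟨b2, hb2m, hb2π, hb2D⟩ := ih (q + 1) (by omega) (by omega)
      (fun σ => c σ - rawD (S.G Y) (S.G W) n b1 σ)
      (Submodule.sub_mem _ hc (S.rawD_mem hnm hb1m)) (fun σ => by
        rw [Helper28.RZ.rawD_sub, hD, zero_sub, neg_eq_zero]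
        subst hnm
        exact rawD_rawD (S.G Y) (S.G W) n b1 σ) (fun σ => by
        rw [LinearMap.sub_comp, hπ, rawD_comp hd]
        have h1 : (fun τ => b1 τ ∘ₗ ε) = fun _ => 0 := funext hb1π
        rw [h1, rawD_zero, sub_zero]) (fun σ hσ => by
        rw [hb1D σ hσ, sub_self])
    refine ⟨fun σ => b1 σ + b2 σ, Submodule.add_mem _ hb1m hb2m, fun σ => ?_, fun σ => ?_⟩
    · rw [LinearMap.add_comp, hb1π, hb2π, add_zero]
    · rw [Helper28.RZ.rawD_add, hb2D]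
      abel

theorem cst_mem {X Y : S.Obj} {φ : (S.G X).V →ₗ[L] (S.G Y).V}
    (h : ∀ σ : Finset I, σ.Nonempty → φ ∈ S.H X Y σ)
    (hdeg : IsDeg (X := S.G X) (Y := S.G Y) 0 φ) : (cst φ : Finset I → _) ∈ S.Hom X Y 0 := by
  refine conc_mem S le_rfl fun σ h1 => ⟨h σ (Finset.card_pos.1 (by omega)), ?_⟩
  rw [show (0 : ℤ) - (((1 : ℕ) : ℤ) - 1) = 0 by norm_num]
  exact hdeg

end HSI

open HSI

theorem hEqSurj : HEqSurj.{u, v} := by
  intro k _ L _ _ I _ _ S X Y π hπ hdeg hd hloc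
  have hj : ∀ σ : Finset I, ∃ j : (S.G Y).V →ₗ[L] (S.G X).V, σ.Nonempty → j ∈ S.H Y X σ ∧
      IsDeg (X := S.G Y) (Y := S.G X) 0 j ∧ π ∘ₗ j = LinearMap.id := by
    intro σ
    by_cases hσ : σ.Nonempty
    · obtain ⟨j, hj, h, hh, hjd, hhd, hπj, hjπ, hπh⟩ := hloc σ hσ
      exact ⟨j, fun _ => ⟨hj, hjd, hπj⟩⟩
    · exact ⟨0, fun h => absurd h hσ⟩
  choose j hj using hj
  set s0 : Finset I → ((S.G Y).V →ₗ[L] (S.G X).V) := fun σ => if σ.card = 1 then j σ else 0 with hs0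
  have hs0m : s0 ∈ S.Hom Y X 0 := by
    refine conc_mem S le_rfl fun σ h1 => ?_
    have := hj σ (Finset.card_pos.1 (by omega))
    refine ⟨this.1, ?_⟩
    rw [show (0 : ℤ) - (((1 : ℕ) : ℤ) - 1) = 0 by norm_num]
    exact this.2.1
  have hs0π : (fun τ => π ∘ₗ s0 τ) = cst LinearMap.id := by
    funext σ
    by_cases h1 : σ.card = 1
    · simp only [hs0, if_pos h1, cst]
      exact (hj σ (Finset.card_pos.1 (by omega))).2.2
    · simp only [hs0, if_neg h1, cst, LinearMap.comp_zero]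
  have hidd : ∀ G : GrD k L, (LinearMap.id : G.V →ₗ[L] G.V) ∘ₗ G.d = G.d ∘ₗ LinearMap.id :=
    fun G => by rw [LinearMap.id_comp, LinearMap.comp_id]
  obtain ⟨b, hbm, hbπ, hbD⟩ := claimS S hdeg hd hloc Y (zero_add 1) (Fintype.card I) 1 le_rfl
    (by omega) (fun σ => rawD (S.G Y) (S.G X) 0 s0 σ) (S.rawD_mem (zero_add 1) hs0m)
    (fun σ => rawD_rawD (S.G Y) (S.G X) 0 s0 σ) (fun σ => by
      rw [comp_rawD hdeg hd, hs0π, rawD_cst (hidd _)]) (fun σ hσ => by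
      have h1 : σ = ∅ := Finset.card_eq_zero.1 (by omega)
      rw [h1]
      exact (S.rawD_mem (zero_add 1) hs0m).1)
  set g : Finset I → ((S.G Y).V →ₗ[L] (S.G X).V) := fun σ => s0 σ - b σ with hg
  have hgm : g ∈ S.Hom Y X 0 := Submodule.sub_mem _ hs0m hbm
  have hgD : ∀ σ, rawD (S.G Y) (S.G X) 0 g σ = 0 := fun σ => by
    rw [hg, Helper28.RZ.rawD_sub, hbD, sub_self]
  have hgπ : ∀ σ, π ∘ₗ g σ = cst LinearMap.id σ := by
    intro σ
    rw [hg]
    simp only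
    rw [LinearMap.comp_sub, hbπ, sub_zero, ← hs0π]
  have hpm : (cst π : Finset I → _) ∈ S.Hom X Y 0 := cst_mem S hπ hdeg
  have hgpm : (fun σ => g σ ∘ₗ π) ∈ S.Hom X X 0 := by
    have h1 := S.ccup_mem (zero_add 0) hgm hpm
    have h2 : ccup g (cst π) = fun σ => g σ ∘ₗ π := funext fun σ => ccup_cst π g hgm.1 σ
    rw [h2] at h1
    exact h1
  have h1m : (cst LinearMap.id : Finset I → ((S.G X).V →ₗ[L] (S.G X).V)) ∈ S.Hom X X 0 :=
    cst_mem S (fun σ _ => S.id_mem X σ) IsDeg.id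
  obtain ⟨b', hb'm, hb'π, hb'D⟩ := claimS S hdeg hd hloc X (neg_add_cancel 1) (Fintype.card I) 1
    le_rfl (by omega) (fun σ => cst LinearMap.id σ - g σ ∘ₗ π)
    (Submodule.sub_mem _ h1m hgpm) (fun σ => by
      rw [Helper28.RZ.rawD_sub, rawD_cst (hidd _), ← rawD_comp hd, hgD, LinearMap.zero_comp,
        sub_zero]) (fun σ => by
      rw [LinearMap.comp_sub, ← LinearMap.comp_assoc, hgπ]
      unfold cst
      split_ifs
      · rw [LinearMap.comp_id, LinearMap.id_comp, sub_self]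
      · rw [LinearMap.comp_zero, LinearMap.zero_comp, sub_zero]) (fun σ hσ => by
      have h1 : σ = ∅ := Finset.card_eq_zero.1 (by omega)
      rw [h1, h1m.1, hgm.1, LinearMap.zero_comp, sub_zero])
  have hb''m : (fun σ => 0 - b' σ) ∈ S.Hom X X (-1) :=
    Submodule.sub_mem _ (Submodule.zero_mem _) hb'm
  refine ⟨⟨_, hpm⟩, ⟨_, hgm⟩, ⟨_, hb''m⟩, (⟨0, Submodule.zero_mem _⟩ :
    S.Hom Y Y (-1)), Subtype.ext (funext fun σ => ?_), Subtype.ext (funext fun σ => ?_),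
    Subtype.ext (funext fun σ => ?_), Subtype.ext (funext fun σ => ?_)⟩
  · exact rawD_cst hd σ
  · exact hgD σ
  · change ccup g (cst π) σ = cone1 (S.G X).V σ + rawD (S.G X) (S.G X) (-1) (fun σ => 0 - b' σ) σ
    rw [Helper28.RZ.rawD_sub, rawD_zero, hb'D, ccup_cst π g hgm.1]
    change _ = cst LinearMap.id σ + _
    abel
  · change ccup (cst π) g σ = cone1 (S.G Y).V σ + rawD (S.G Y) (S.G Y) (-1) (fun _ => 0) σ
    rw [rawD_zero, add_zero, cst_ccup π g hgm.1, hgπ]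
    rfl

theorem hEqInj : HEqInj.{u, v} := by
  intro k _ L _ _ I _ _ S X Y ε hε hdeg hd hloc
  have hj : ∀ σ : Finset I, ∃ j : (S.G Y).V →ₗ[L] (S.G X).V, σ.Nonempty → j ∈ S.H Y X σ ∧
      IsDeg (X := S.G Y) (Y := S.G X) 0 j ∧ j ∘ₗ ε = LinearMap.id := by
    intro σ
    by_cases hσ : σ.Nonempty
    · obtain ⟨j, hj, h, hh, hjd, hhd, hπj, hjπ, hπh⟩ := hloc σ hσ
      exact ⟨j, fun _ => ⟨hj, hjd, hπj⟩⟩
    · exact ⟨0, fun h => absurd h hσ⟩
  choose j hj using hj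
  set s0 : Finset I → ((S.G Y).V →ₗ[L] (S.G X).V) := fun σ => if σ.card = 1 then j σ else 0 with hs0
  have hs0m : s0 ∈ S.Hom Y X 0 := by
    refine conc_mem S le_rfl fun σ h1 => ?_
    have := hj σ (Finset.card_pos.1 (by omega))
    refine ⟨this.1, ?_⟩
    rw [show (0 : ℤ) - (((1 : ℕ) : ℤ) - 1) = 0 by norm_num]
    exact this.2.1
  have hs0π : (fun τ => s0 τ ∘ₗ ε) = cst LinearMap.id := by
    funext σ
    by_cases h1 : σ.card = 1
    · simp only [hs0, if_pos h1, cst]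
      exact (hj σ (Finset.card_pos.1 (by omega))).2.2
    · simp only [hs0, if_neg h1, cst, LinearMap.zero_comp]
  have hidd : ∀ G : GrD k L, (LinearMap.id : G.V →ₗ[L] G.V) ∘ₗ G.d = G.d ∘ₗ LinearMap.id :=
    fun G => by rw [LinearMap.id_comp, LinearMap.comp_id]
  obtain ⟨b, hbm, hbπ, hbD⟩ := claimI S hd hloc X (zero_add 1) (Fintype.card I) 1 le_rfl
    (by omega) (fun σ => rawD (S.G Y) (S.G X) 0 s0 σ) (S.rawD_mem (zero_add 1) hs0m)
    (fun σ => rawD_rawD (S.G Y) (S.G X) 0 s0 σ) (fun σ => by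
      rw [rawD_comp hd, hs0π, rawD_cst (hidd _)]) (fun σ hσ => by
      have h1 : σ = ∅ := Finset.card_eq_zero.1 (by omega)
      rw [h1]
      exact (S.rawD_mem (zero_add 1) hs0m).1)
  set g : Finset I → ((S.G Y).V →ₗ[L] (S.G X).V) := fun σ => s0 σ - b σ with hg
  have hgm : g ∈ S.Hom Y X 0 := Submodule.sub_mem _ hs0m hbm
  have hgD : ∀ σ, rawD (S.G Y) (S.G X) 0 g σ = 0 := fun σ => by
    rw [hg, Helper28.RZ.rawD_sub, hbD, sub_self]
  have hgπ : ∀ σ, g σ ∘ₗ ε = cst LinearMap.id σ := by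
    intro σ
    rw [hg]
    simp only
    rw [LinearMap.sub_comp, hbπ, sub_zero, ← hs0π]
  have hpm : (cst ε : Finset I → _) ∈ S.Hom X Y 0 := cst_mem S hε hdeg
  have hgpm : (fun σ => ε ∘ₗ g σ) ∈ S.Hom Y Y 0 := by
    have h1 := S.ccup_mem (zero_add 0) hpm hgm
    have h2 : ccup (cst ε) g = fun σ => ε ∘ₗ g σ := funext fun σ => cst_ccup ε g hgm.1 σ
    rw [h2] at h1
    exact h1
  have h1m : (cst LinearMap.id : Finset I → ((S.G Y).V →ₗ[L] (S.G Y).V)) ∈ S.Hom Y Y 0 :=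
    cst_mem S (fun σ _ => S.id_mem Y σ) IsDeg.id
  obtain ⟨b', hb'm, hb'π, hb'D⟩ := claimI S hd hloc Y (neg_add_cancel 1) (Fintype.card I) 1
    le_rfl (by omega) (fun σ => cst LinearMap.id σ - ε ∘ₗ g σ)
    (Submodule.sub_mem _ h1m hgpm) (fun σ => by
      rw [Helper28.RZ.rawD_sub, rawD_cst (hidd _), ← comp_rawD hdeg hd, hgD, LinearMap.comp_zero,
        sub_zero]) (fun σ => by
      rw [LinearMap.sub_comp, LinearMap.comp_assoc, hgπ]
      unfold cst
      split_ifs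
      · rw [LinearMap.comp_id, LinearMap.id_comp, sub_self]
      · rw [LinearMap.comp_zero, LinearMap.zero_comp, sub_zero]) (fun σ hσ => by
      have h1 : σ = ∅ := Finset.card_eq_zero.1 (by omega)
      rw [h1, h1m.1, hgm.1, LinearMap.comp_zero, sub_zero])
  have hb''m : (fun σ => 0 - b' σ) ∈ S.Hom Y Y (-1) :=
    Submodule.sub_mem _ (Submodule.zero_mem _) hb'm
  refine ⟨⟨_, hpm⟩, ⟨_, hgm⟩, (⟨0, Submodule.zero_mem _⟩ : S.Hom X X (-1)),
    ⟨_, hb''m⟩, Subtype.ext (funext fun σ => ?_),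
    Subtype.ext (funext fun σ => ?_), Subtype.ext (funext fun σ => ?_),
    Subtype.ext (funext fun σ => ?_)⟩
  · exact rawD_cst hd σ
  · exact hgD σ
  · change ccup g (cst ε) σ = cone1 (S.G X).V σ + rawD (S.G X) (S.G X) (-1) (fun _ => 0) σ
    rw [rawD_zero, add_zero, ccup_cst ε g hgm.1, hgπ]
    rfl
  · change ccup (cst ε) g σ = cone1 (S.G Y).V σ + rawD (S.G Y) (S.G Y) (-1) (fun σ => 0 - b' σ) σ
    rw [Helper28.RZ.rawD_sub, rawD_zero, hb'D, cst_ccup ε g hgm.1]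
    change _ = cst LinearMap.id σ + _
    abel

end

end Pool.Agent.Helper18.RZ
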