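import Pool.Agent.Helper17.RZ.St3

/-!
# Project RZ, module C7: resolutions by bundles of the thick subcategory
-/

set_option autoImplicit false

namespace Pool.Agent.Helper18.RZ

open Pool.Agent.Helper17.RZ

universe u

noncomputable section

variable {k : Type u} [Field k] {K : Type u} [Field K] [Algebra k K]

theorem conc0_pr {Z : ProjVar k K} {P : Cplx Z} (h : P.Conc0) {j : ℤ} (hj : j ≠ 0) : P.pr j = 0 := by
  have h1 := P.pr_pr j 0
  rw [if_neg hj] at h1
  have h2 : P.pr 0 = LinearMap.id := h
  rw [h2] at h1
  exact h1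

theorem conc0_d {Z : ProjVar k K} {P : Cplx Z} (h : P.Conc0) : P.d = 0 := by
  have h1 := P.d_pr 0
  have h2 : P.pr 0 = LinearMap.id := h
  rw [h2, conc0_pr h (by norm_num : (0 : ℤ) + 1 ≠ 0)] at h1
  simpa using h1

/-- C7 -/
theorem resEx (hK : KerEx.{u}) (hC : ConeEx.{u}) (hS : ConeSES.{u}) : ResEx.{u} := by
  intro k _ K _ _ Z E hE n
  induction n with
  | zero =>
    intro V hV
    obtain ⟨P, π, hP0, hTh, hsurj⟩ := hE V hV
    refine ⟨P, π, hTh, ?_, ?_, ?_, ?_⟩
    · intro j hj
      exact conc0_pr hP0 hj.ne'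
    · intro j hj
      rw [conc0_pr hP0 hj]; simp
    · rw [conc0_d hP0]; simp
    · intro σ hσ
      refine ⟨fun x hx => (hsurj σ hσ _).mpr ⟨x, hx, rfl⟩, ?_, ?_⟩
      · intro w hw
        obtain ⟨x, hx, hxw⟩ := (hsurj σ hσ w).mp hw
        refine ⟨x, hx, ?_, hxw⟩
        have h2 : P.pr 0 = LinearMap.id := hP0
        rw [h2]; rfl
      · intro j hj x _ hx _ _
        have hj' : 0 < j := by simpa using hj
        have h0 : x = 0 := by
          rw [← hx, conc0_pr hP0 hj'.ne']; rfl
        refine ⟨0, (P.lat σ).zero_mem, by simp, by simp [h0]⟩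
  | succ n ih =>
    intro V hV
    obtain ⟨P, π₀, hP0, hTh, hsurj⟩ := hE V hV
    obtain ⟨V1, jj, hV1, hinj, hker, hlat1⟩ := hK k K Z P V π₀ hP0 hV hsurj
    obtain ⟨X', π', hTh', hres1, hres2, hres3, hres4⟩ := ih V1 hV1
    have hPid : P.pr 0 = LinearMap.id := hP0
    have hPd : P.d = 0 := conc0_d hP0
    have hπjj : ∀ y, π₀ (jj y) = 0 := fun y => (hker _).mpr ⟨y, rfl⟩
    have hf0 : IsDeg (X := X'.toGrD) (Y := P.toGrD) 0 (jj ∘ₗ π') := by
      intro i
      rw [add_zero]
      by_cases hi : i = 0
      · subst hi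
        rw [hPid, LinearMap.id_comp]
        apply X'.toGrD.ext_pr
        intro i
        rw [LinearMap.comp_assoc, X'.pr_pr]
        by_cases h0 : (0 : ℤ) = i
        · subst h0; rw [if_pos rfl]
        · rw [if_neg h0, LinearMap.comp_zero, LinearMap.comp_assoc, hres2 i (Ne.symm h0),
            LinearMap.comp_zero]
      · rw [conc0_pr hP0 hi, LinearMap.comp_assoc, hres2 i hi]
        simp
    have hfd : (jj ∘ₗ π') ∘ₗ X'.d = P.d ∘ₗ (jj ∘ₗ π') := by
      rw [hPd, LinearMap.comp_assoc, hres3]; simp
    have hfl : ∀ σ : Finset Z.I, σ.Nonempty → ∀ x, x ∈ X'.lat σ → (jj ∘ₗ π') x ∈ P.lat σ := by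
      intro σ hσ x hx
      exact (hlat1 σ hσ _).mpr ((hres4 σ hσ).1 x hx)
    obtain ⟨C, e, hpr, hd, hlat⟩ := hC k K Z X' P (jj ∘ₗ π') hf0 hfd hfl
    have hses := hS k K Z X' P C (jj ∘ₗ π') e hpr hd hlat
    refine ⟨C, π₀ ∘ₗ LinearMap.snd K X'.V P.V ∘ₗ e.toLinearMap,
      Thick.ses₂ P C (X'.shift 1) hses hTh (Thick.shift X' 1 hTh'), ?_, ?_, ?_, ?_⟩
    · intro j hj
      ext v
      apply e.injective
      rw [hpr, hres1 (j + 1) (by omega), conc0_pr hP0 hj.ne']
      simp
    · intro j hj
      ext v
      simp only [LinearMap.comp_apply, LinearEquiv.coe_coe, LinearMap.snd_apply,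
        LinearMap.zero_apply]
      rw [hpr, conc0_pr hP0 hj]
      simp
    · ext v
      simp only [LinearMap.comp_apply, LinearEquiv.coe_coe, LinearMap.snd_apply,
        LinearMap.zero_apply]
      rw [hd, hPd]
      simp [hπjj]
    · intro σ hσ
      obtain ⟨hr1, hr2, hr3⟩ := hres4 σ hσ
      refine ⟨?_, ?_, ?_⟩
      · intro x hx
        exact (hsurj σ hσ _).mpr ⟨(e x).2, ((hlat σ hσ x).mp hx).2, rfl⟩
      · intro w hw
        obtain ⟨y, hy, hyw⟩ := (hsurj σ hσ w).mp hw
        refine ⟨e.symm (0, y), ?_, ?_, ?_⟩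
        · rw [hlat σ hσ, e.apply_symm_apply]
          exact ⟨(X'.lat σ).zero_mem, hy⟩
        · apply e.injective
          rw [hpr, e.apply_symm_apply, hPid]
          simp
        · simp [hyw]
      · intro j hj x hx hxj hdx hj0
        have hxl := (hlat σ hσ x).mp hx
        set a : X'.V := (e x).1 with ha
        set b : P.V := (e x).2 with hb
        have hab : e x = (a, b) := rfl
        have h1 : X'.pr (j + 1) a = a ∧ P.pr j b = b := by
          have := hpr j x
          rw [hxj, hab] at this
          have h2 := Prod.mk.inj this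
          exact ⟨h2.1.symm, h2.2.symm⟩
        have h2 : X'.d a = 0 ∧ jj (π' a) = 0 := by
          have := hd x
          rw [hdx, map_zero, hPd] at this
          have h3 := Prod.mk.inj this
          refine ⟨?_, ?_⟩
          · have := h3.1
            rw [← ha] at this
            exact neg_eq_zero.mp this.symm
          · have := h3.2
            rw [LinearMap.zero_apply, add_zero] at this
            exact this.symm
        have h3 : π' a = 0 := hinj (by rw [h2.2, map_zero])
        rcases lt_trichotomy j 0 with hjn | hjz | hjp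
        · -- negative degrees
          have hb0 : b = 0 := by
            rw [← h1.2, conc0_pr hP0 hjn.ne]; rfl
          obtain ⟨x'', hx''l, hx''d, hx''⟩ := hr3 (j + 1) (by push_cast at hj; omega) a hxl.1 h1.1
            h2.1 (fun _ => h3)
          rw [add_sub_cancel_right] at hx''d
          have hπx : π' x'' = 0 := by
            rw [← hx''d]
            have := congrArg (fun φ => φ x'') (hres2 j hjn.ne)
            simpa using this
          refine ⟨e.symm (-x'', 0), ?_, ?_, ?_⟩
          · rw [hlat σ hσ, e.apply_symm_apply]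
            exact ⟨(X'.lat σ).neg_mem hx''l, (P.lat σ).zero_mem⟩
          · apply e.injective
            rw [hpr, e.apply_symm_apply, sub_add_cancel]
            simp [hx''d]
          · apply e.injective
            rw [hd, e.apply_symm_apply, hab, hb0, hPd]
            simp [hx'', hπx]
        · -- degree zero
          subst hjz
          have ha0 : a = 0 := by
            rw [← h1.1, hres1 (0 + 1) (by norm_num)]; rfl
          have hπb : π₀ b = 0 := hj0 rfl
          obtain ⟨v1, hv1⟩ := (hker b).mp hπb
          have hv1l : v1 ∈ V1.lat σ := (hlat1 σ hσ v1).mp (by rw [hv1]; exact hxl.2)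
          obtain ⟨x', hx'l, hx'0, hx'π⟩ := hr2 v1 hv1l
          have hdx' : X'.d x' = 0 := by
            have h4 := congrArg (fun φ => φ x') (X'.d_pr 0)
            simp only [LinearMap.comp_apply] at h4
            rw [hx'0, hres1 (0 + 1) (by norm_num)] at h4
            simpa using h4
          refine ⟨e.symm (x', 0), ?_, ?_, ?_⟩
          · rw [hlat σ hσ, e.apply_symm_apply]
            exact ⟨hx'l, (P.lat σ).zero_mem⟩
          · apply e.injective
            rw [hpr, e.apply_symm_apply, sub_add_cancel]
            simp [hx'0]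
          · apply e.injective
            rw [hd, e.apply_symm_apply, hab, ha0, hPd]
            simp [hdx', hx'π, hv1]
        · -- positive degrees
          have ha0 : a = 0 := by
            rw [← h1.1, hres1 (j + 1) (by omega)]; rfl
          have hb0 : b = 0 := by
            rw [← h1.2, conc0_pr hP0 hjp.ne']; rfl
          have hx0 : x = 0 := by
            apply e.injective
            rw [hab, ha0, hb0, map_zero]; rfl
          exact ⟨0, (C.lat σ).zero_mem, by simp, by simp [hx0]⟩

end

end Pool.Agent.Helper18.RZ
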